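import Mathlib
import Pool.Agent.H541R3.ART.Irr

/-! # The orders of the functions `Lin H ψ` are natural numbers -/

set_option autoImplicit false

namespace Pool.Agent.Q290.AR

open Pool.Agent.H541R3.ART

variable {G : Type} [Group G] [Finite G] {s₀ : ℂ}

theorem exists_order (A : ArtinData G s₀) (H : Subgroup G) (ψ : H →* ℂˣ) :
    ∃ r : ℕ, meromorphicOrderAt (A.Lin H ψ) s₀ = ((r : ℕ) : WithTop ℤ) := by
  classical
  choose! m hm using fun χ (hχ : χ ∈ Irr G) => exists_mult hχ H ψ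
  have h1 := A.order_Lin H ψ m hm
  have h2 := A.hecke H ψ
  rw [h1] at h2
  have h3 : 0 ≤ ∑ χ ∈ irrF G, (m χ : ℤ) * A.ord χ := by exact_mod_cast h2
  obtain ⟨r, hr⟩ := Int.eq_ofNat_of_zero_le h3
  refine ⟨r, ?_⟩
  rw [h1, hr]
  rfl

end Pool.Agent.Q290.AR
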